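import Pool.Agent.Helper94.BA.Node

/-!
# Project FR, module C1: recursion along a well-order
-/

set_option autoImplicit false

namespace Pool.Agent.Helper32.FR

open Pool.Agent.Helper33.HM Pool.Agent.Helper94.BA

universe u

/-- FR-C1: the recursion. -/
theorem exists_rec {P₀ I : Type u} [Preorder P₀] [LinearOrder I] [WellFoundedLT I]
    (Step : (I → Set (Name P₀ I)) → I → Set (Name P₀ I)) :
    ∃ F : I → Set (Name P₀ I), ∀ i, F i = Step (restr F i) i := by
  classical
  refine ⟨(wellFounded_lt (α := I)).fix fun i ih =>
    Step (fun j => if h : j < i then ih j h else ∅) i, fun i => ?_⟩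
  rw [WellFounded.fix_eq]
  congr 1

end Pool.Agent.Helper32.FR
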